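import Pool.Agent.Helper97.FS.Stmts

set_option autoImplicit false

namespace Pool.Agent.Helper97.FS

open Finset MeasureTheory Filter Topology
open scoped ComplexConjugate
open Pool.Agent.Helper97.Sub

section wup

variable {d : ℕ}

theorem wup_ab_append (U V : List (Fin d)) : ab (U ++ V) = ab U + ab V := by
  funext a
  simp [ab, List.count_append]

theorem wup_chi_add {y : Fin d → ℂ} (hy : ∀ a, ‖y a‖ = 1) (j j' : Fin d → ℤ) :
    chi y (j + j') = chi y j * chi y j' := by
  unfold chi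
  rw [← prod_mul_distrib]
  refine prod_congr rfl fun a _ => ?_
  have h0 : y a ≠ 0 := by
    intro h
    have h1 := hy a
    rw [h, norm_zero] at h1
    norm_num at h1
  rw [Pi.add_apply, zpow_add₀ h0]

theorem wup_norm_chi {y : Fin d → ℂ} (hy : ∀ a, ‖y a‖ = 1) (j : Fin d → ℤ) : ‖chi y j‖ = 1 := by
  unfold chi
  rw [norm_prod]
  apply prod_eq_one
  intro a _
  rw [norm_zpow, hy, one_zpow]

theorem wup_ab_single (c : Fin d) : ab [c] = Pi.single c 1 := by
  funext a
  by_cases h : a = c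
  · subst h
    simp [ab]
  · have h' : ¬ c = a := fun e => h e.symm
    simp [ab, Pi.single_apply, h, h']

theorem wup_chi_single (y : Fin d → ℂ) (c : Fin d) : chi y (Pi.single c 1) = y c := by
  unfold chi
  rw [Finset.prod_eq_single c]
  · simp
  · intro b _ hb
    simp [Pi.single_apply, hb]
  · simp

theorem wup_yw {y : Fin d → ℂ} (hy : ∀ a, ‖y a‖ = 1) (V : List (Fin d)) :
    yw y V = chi y (ab V) := by
  induction V with
  | nil => simp [yw, chi, ab]
  | cons c V ih =>
    have h1 : ab (c :: V) = ab [c] + ab V := by rw [← wup_ab_append]; rfl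
    rw [h1, wup_chi_add hy, ← ih, wup_ab_single, wup_chi_single]
    simp [yw]

theorem wup_Fc {y : Fin d → ℂ} (hy : ∀ a, ‖y a‖ = 1) (c : Fin d) (V : List (Fin d)) (u : ℕ) :
    Fc y c V u = ∑ r ∈ range u, zz y V c r := by
  induction u with
  | zero => simp [Fc, WS]
  | succ u ih =>
    rw [sum_range_succ, ← ih]
    unfold Fc
    rw [List.take_succ, WS_append, wup_yw hy]
    congr 1
    unfold zz
    cases h : V[u]? with
    | none => simp [WS]
    | some e =>
      by_cases hc : e = c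
      · subst hc; simp [WS]
      · simp [WS, Pi.single_apply, hc]

theorem wup_Fc_append (y : Fin d → ℂ) (c : Fin d) (P U Q : List (Fin d)) (u : ℕ)
    (hu : u ≤ U.length) :
    Fc y c (P ++ U ++ Q) (P.length + u) = WS y (Pi.single c 1) P + yw y P * Fc y c U u := by
  unfold Fc
  have h1 : (P ++ U ++ Q).take (P.length + u) = P ++ U.take u := by
    rw [List.append_assoc, List.take_length_add_append, List.take_append_of_le_length hu]
  rw [h1, WS_append]

theorem wup_len_add (L : Fin d → ℝ) (j j' : Fin d → ℤ) :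
    len L (j + j') = len L j + len L j' := by
  unfold len
  rw [← sum_add_distrib]
  refine sum_congr rfl fun a _ => ?_
  rw [Pi.add_apply]
  push_cast
  ring

theorem wup_pos_append (L : Fin d → ℝ) (P U Q : List (Fin d)) (u : ℕ) (hu : u ≤ U.length) :
    pos L (P ++ U ++ Q) (P.length + u) = len L (ab P) + pos L U u := by
  unfold pos
  have h1 : (P ++ U ++ Q).take (P.length + u) = P ++ U.take u := by
    rw [List.append_assoc, List.take_length_add_append, List.take_append_of_le_length hu]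
  rw [h1, wup_ab_append, wup_len_add]

theorem wup_len_nonneg {L : Fin d → ℝ} (hL : ∀ a, 0 < L a) (V : List (Fin d)) :
    0 ≤ len L (ab V) := by
  unfold len
  refine sum_nonneg fun a _ => mul_nonneg (hL a).le ?_
  unfold ab
  positivity

theorem wup_pos_le {L : Fin d → ℝ} (hL : ∀ a, 0 < L a) (U : List (Fin d)) (u : ℕ) :
    0 ≤ pos L U u ∧ pos L U u ≤ len L (ab U) := by
  refine ⟨wup_len_nonneg hL _, ?_⟩
  have h1 : len L (ab U) = len L (ab (U.take u)) + len L (ab (U.drop u)) := by
    rw [← wup_len_add, ← wup_ab_append, List.take_append_drop]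
  have h2 := wup_len_nonneg hL (U.drop u)
  unfold pos
  linarith

theorem wup_pos_step {L : Fin d → ℝ} {δ : ℝ} (hδ : ∀ a, δ ≤ L a) (V : List (Fin d)) (i : ℕ)
    (hi : i < V.length) : pos L V i + δ ≤ pos L V (i + 1) := by
  unfold pos
  rw [List.take_succ, wup_ab_append, wup_len_add]
  have h1 : V[i]? = some V[i] := List.getElem?_eq_getElem hi
  rw [h1]
  have h2 : len L (ab [V[i]]) = L V[i] := by
    rw [wup_ab_single]
    unfold len
    rw [Finset.sum_eq_single V[i]]
    · simp
    · intro b _ hb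
      simp [Pi.single_apply, hb]
    · simp
  have h3 : (some V[i]).toList = [V[i]] := rfl
  rw [h3, h2]
  have := hδ V[i]
  linarith

/-- sum over the pairs of an interval -/
noncomputable def wup_A (g : ℕ → ℕ → ℝ) (lo n : ℕ) : ℝ :=
  ∑ j ∈ range (n + 1), ∑ i ∈ range j, g (lo + i) (lo + j)

theorem wup_A_add (g : ℕ → ℕ → ℝ) (hg : ∀ i j, 0 ≤ g i j) (lo n m : ℕ) :
    wup_A g lo n + wup_A g (lo + n) m ≤ wup_A g lo (n + m) := by
  unfold wup_A
  have e : n + m + 1 = (n + 1) + m := by ring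
  rw [e, sum_range_add _ (n + 1) m]
  have e2 : ∑ j ∈ range (m + 1), ∑ i ∈ range j, g (lo + n + i) (lo + n + j) =
      ∑ j ∈ range m, ∑ i ∈ range (j + 1), g (lo + n + i) (lo + n + (j + 1)) := by
    rw [sum_range_succ']; simp
  rw [e2]
  apply add_le_add le_rfl
  refine sum_le_sum fun j _ => ?_
  have h1 : ∑ i ∈ range (n + 1 + j), g (lo + i) (lo + (n + 1 + j)) =
      ∑ i ∈ range n, g (lo + i) (lo + (n + 1 + j)) +
        ∑ i ∈ range (j + 1), g (lo + (n + i)) (lo + (n + 1 + j)) := by
    rw [show n + 1 + j = n + (j + 1) by ring, sum_range_add]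
  rw [h1]
  have h2 : 0 ≤ ∑ i ∈ range n, g (lo + i) (lo + (n + 1 + j)) := sum_nonneg fun _ _ => hg _ _
  have h3 : ∑ i ∈ range (j + 1), g (lo + n + i) (lo + n + (j + 1)) =
      ∑ i ∈ range (j + 1), g (lo + (n + i)) (lo + (n + 1 + j)) := by
    refine sum_congr rfl fun i _ => ?_
    rw [show lo + n + i = lo + (n + i) by ring, show lo + n + (j + 1) = lo + (n + 1 + j) by ring]
  linarith

theorem wup_A_nonneg (g : ℕ → ℕ → ℝ) (hg : ∀ i j, 0 ≤ g i j) (lo n : ℕ) : 0 ≤ wup_A g lo n :=
  sum_nonneg fun _ _ => sum_nonneg fun _ _ => hg _ _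

theorem wup_tiles (g : ℕ → ℕ → ℝ) (hg : ∀ i j, 0 ≤ g i j) (τ : Fin d → List (Fin d)) (b : Fin d)
    (h : ℝ) (W : List (Fin d)) : ∀ lo : ℕ,
    (∀ P Q : List (Fin d), W = P ++ b :: Q →
      h ≤ wup_A g (lo + (P.flatMap τ).length) (τ b).length) →
    (W.count b : ℝ) * h ≤ wup_A g lo (W.flatMap τ).length := by
  induction W with
  | nil => intro lo _; simp [wup_A]
  | cons e W ih =>
    intro lo hyp
    have h1 := ih (lo + (τ e).length) (fun P Q hPQ => by
      have h2 := hyp (e :: P) Q (by rw [hPQ]; rfl)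
      rwa [List.flatMap_cons, List.length_append, ← add_assoc] at h2)
    rw [List.flatMap_cons, List.length_append]
    refine le_trans ?_ (wup_A_add g hg lo _ _)
    by_cases he : e = b
    · subst he
      have h2 := hyp [] W rfl
      simp only [List.flatMap_nil, List.length_nil, add_zero] at h2
      rw [List.count_cons_self]
      push_cast
      linarith
    · rw [List.count_cons_of_ne he]
      have := wup_A_nonneg g hg lo (τ e).length
      linarith

theorem wup_sym (f : ℕ → ℕ → ℝ) (hs : ∀ i j, f i j = f j i) (h0 : ∀ i, f i i = 0) (n : ℕ) :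
    ∑ i ∈ range n, ∑ j ∈ range n, f i j = 2 * ∑ j ∈ range n, ∑ i ∈ range j, f i j := by
  induction n with
  | zero => simp
  | succ n ih =>
    rw [sum_range_succ, sum_range_succ (fun j => ∑ i ∈ range j, f i j)]
    have e1 : ∑ i ∈ range n, ∑ j ∈ range (n + 1), f i j =
        ∑ i ∈ range n, ∑ j ∈ range n, f i j + ∑ i ∈ range n, f i n := by
      rw [← sum_add_distrib]
      exact sum_congr rfl fun i _ => sum_range_succ _ _
    rw [e1, ih, sum_range_succ, h0]
    have e2 : ∑ j ∈ range n, f n j = ∑ i ∈ range n, f i n := sum_congr rfl fun j _ => hs n j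
    rw [e2]
    ring

variable {σ : Fin d → List (Fin d)} {M : Matrix (Fin d) (Fin d) ℤ} {θ : ℝ} {L f : Fin d → ℝ}

theorem wup_len_T (h : PFD σ M θ L f) (k : ℕ) (b : Fin d) :
    len L (ab (T σ k b)) = θ ^ k * L b := by
  have e : len L (ab (T σ k b)) = ∑ a, L a * (((M ^ k) a b : ℤ) : ℝ) := by
    unfold len ab
    refine sum_congr rfl fun a _ => ?_
    rw [count_T h.cntM]
  rw [e]
  clear e
  induction k generalizing b with
  | zero =>
    rw [Finset.sum_eq_single b]
    · simp
    · intro a _ hab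
      simp [Matrix.one_apply, hab]
    · simp
  | succ k ih =>
    have e1 : ∀ a, (((M ^ (k + 1)) a b : ℤ) : ℝ) =
        ∑ e, (((M ^ k) a e : ℤ) : ℝ) * ((M e b : ℤ) : ℝ) := by
      intro a
      rw [pow_succ, Matrix.mul_apply]
      push_cast
      rfl
    calc ∑ a, L a * (((M ^ (k + 1)) a b : ℤ) : ℝ)
        = ∑ a, ∑ e, L a * (((M ^ k) a e : ℤ) : ℝ) * ((M e b : ℤ) : ℝ) := by
          refine sum_congr rfl fun a _ => ?_
          rw [e1, mul_sum]
          exact sum_congr rfl fun e _ => by ring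
      _ = ∑ e, (∑ a, L a * (((M ^ k) a e : ℤ) : ℝ)) * ((M e b : ℤ) : ℝ) := by
          rw [sum_comm]
          exact sum_congr rfl fun e _ => by rw [sum_mul]
      _ = ∑ e, θ ^ k * (L e * ((M e b : ℤ) : ℝ)) := by
          refine sum_congr rfl fun e _ => ?_
          rw [ih]; ring
      _ = θ ^ (k + 1) * L b := by
          rw [← mul_sum, h.left b]; ring

theorem wup_length_lim (h : PFD σ M θ L f) (a : Fin d) :
    Tendsto (fun N : ℕ => ((T σ N a).length : ℝ) / θ ^ N) atTop (𝓝 (L a)) := by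
  have e : (fun N : ℕ => ((T σ N a).length : ℝ) / θ ^ N) =
      fun N : ℕ => ∑ b, (((M ^ N) b a : ℤ) : ℝ) / θ ^ N := by
    funext N
    have h1 : ((T σ N a).length : ℝ) = ∑ b, (((M ^ N) b a : ℤ) : ℝ) := by
      have h2 := length_T h.cntM N a
      have h3 : (((T σ N a).length : ℤ) : ℝ) = ((ell M N a : ℤ) : ℝ) := by rw [h2]
      rw [ell] at h3
      push_cast at h3
      exact h3
    rw [h1, sum_div]
  rw [e]
  have h2 : L a = ∑ b, f b * L a := by rw [← sum_mul, h.fsum, one_mul]
  rw [h2]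
  exact tendsto_finset_sum _ fun b _ => h.lim a b

theorem wup_count_lim (h : PFD σ M θ L f) (k : ℕ) (a b : Fin d) :
    Tendsto (fun N : ℕ => ((T σ N a).count b : ℝ) / ((T σ (N + k) a).length : ℝ)) atTop
      (𝓝 (f b / θ ^ k)) := by
  have hθ : 0 < θ := lt_trans one_pos h.one_lt
  have h1 : Tendsto (fun N : ℕ => ((T σ N a).count b : ℝ) / θ ^ N) atTop (𝓝 (f b * L a)) := by
    have h2 := h.lim a b
    refine h2.congr fun N => ?_
    rw [← count_T h.cntM]
    norm_cast
  have h2 := (tendsto_add_atTop_iff_nat k).2 (wup_length_lim h a)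
  have h3 := (h1.div h2 (h.Lpos a).ne').mul_const (1 / θ ^ k)
  have e : f b * L a / L a * (1 / θ ^ k) = f b / θ ^ k := by
    have := (h.Lpos a).ne'
    field_simp
  rw [e] at h3
  refine h3.congr fun N => ?_
  have h4 : θ ^ N ≠ 0 := (pow_pos hθ N).ne'
  have h5 : θ ^ k ≠ 0 := (pow_pos hθ k).ne'
  rw [Pi.div_apply, pow_add]
  by_cases h6 : ((T σ (N + k) a).length : ℝ) = 0
  · rw [h6]; simp
  · field_simp

end wup

theorem st_WUP (hWREP : ST_WREP) (hWW1 : ST_WW1) : ST_WUP := by
  intro d σ M θ L f gam hD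
  have hθ1 : 1 < θ := hD.one_lt
  have hθ : 0 < θ := lt_trans one_pos hθ1
  -- minimal length
  obtain ⟨δ, hδ0, hδ⟩ : ∃ δ : ℝ, 0 < δ ∧ ∀ a, δ ≤ L a := by
    rcases isEmpty_or_nonempty (Fin d) with h | h
    · exact ⟨1, one_pos, fun a => (h.false a).elim⟩
    · obtain ⟨a, ha⟩ := Finite.exists_min L
      exact ⟨L a, hD.Lpos a, ha⟩
  set C0 : ℝ := ∑ a, L a + δ with hC0
  have hC0' : 0 < C0 := add_pos_of_nonneg_of_pos (sum_nonneg fun a _ => (hD.Lpos a).le) hδ0
  set CU : ℝ := ∑ a, C0 ^ 2 / (δ ^ 2 * f a) with hCU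
  have hterm : ∀ a, 0 ≤ C0 ^ 2 / (δ ^ 2 * f a) := fun a => by
    have := hD.fpos a
    positivity
  refine ⟨C0, CU, hC0', sum_nonneg fun a _ => hterm a, ?_⟩
  intro y hy k b
  set t : ℝ := C0 * θ ^ k with ht
  have ht0 : 0 < t := by positivity
  obtain ⟨hV0, hVlim⟩ := hWREP d σ M θ L f gam hD y hy t ht0
  have hθk : 1 ≤ θ ^ k := one_le_pow₀ hθ1.le
  -- the tile sum
  set S : ℝ := ∑ j ∈ range ((T σ k b).length + 1), ∑ i ∈ range j, ∑ c,
    ‖Fc y c (T σ k b) i - Fc y c (T σ k b) j‖ ^ 2 with hS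
  have hS2 : ∑ u ∈ range ((T σ k b).length + 1), ∑ u' ∈ range ((T σ k b).length + 1), ∑ c,
      ‖Fc y c (T σ k b) u - Fc y c (T σ k b) u'‖ ^ 2 = 2 * S := by
    apply wup_sym (fun u u' => ∑ c, ‖Fc y c (T σ k b) u - Fc y c (T σ k b) u'‖ ^ 2)
    · intro i j
      exact sum_congr rfl fun c _ => by rw [norm_sub_rev]
    · intro i
      simp
  rw [hS2]
  -- main inequality for finite words
  have hmain : ∀ N : ℕ, δ ^ 2 * (((T σ N b).count b : ℝ) * S) ≤
      (t ^ 2 / 2) * qf L y t (T σ (N + k) b) := by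
    intro N
    set V := T σ (N + k) b with hV
    have hVf : V = (T σ N b).flatMap (T σ k) := T_add σ N k b
    have h1 := hWW1 d V.length (pos L V) (fun c i => zz y V c i) t δ ht0 hδ0
      (fun i hi => wup_pos_step hδ V i hi)
    refine le_trans ?_ h1
    apply mul_le_mul_of_nonneg_left _ (by positivity)
    set g : ℕ → ℕ → ℝ := fun i i' => if pos L V i' - pos L V i + δ ≤ t then
      ∑ c, ‖∑ r ∈ Ico i i', zz y V c r‖ ^ 2 else 0 with hg
    have hg0 : ∀ i j, 0 ≤ g i j := by
      intro i j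
      rw [hg]
      dsimp only
      split_ifs
      · positivity
      · exact le_rfl
    have h2 : ∑ i ∈ range (V.length + 1), ∑ i' ∈ range (V.length + 1),
        (if i < i' ∧ pos L V i' - pos L V i + δ ≤ t then
          ∑ c, ‖∑ r ∈ Ico i i', zz y V c r‖ ^ 2 else 0) = wup_A g 0 V.length := by
      rw [sum_comm]
      unfold wup_A
      refine sum_congr rfl fun j hj => ?_
      rw [mem_range] at hj
      have h3 : ∑ i ∈ range j, g (0 + i) (0 + j) = ∑ i ∈ range j,
          (if i < j ∧ pos L V j - pos L V i + δ ≤ t then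
          ∑ c, ‖∑ r ∈ Ico i j, zz y V c r‖ ^ 2 else 0) := by
        refine sum_congr rfl fun i hi => ?_
        rw [mem_range] at hi
        rw [zero_add, zero_add, hg]
        dsimp only
        simp [hi]
      rw [h3]
      symm
      apply sum_subset
      · intro i hi
        rw [mem_range] at hi ⊢
        omega
      · intro i _ hi
        rw [mem_range] at hi
        rw [if_neg]
        exact fun hh => hi hh.1
    rw [h2]
    have h3 := wup_tiles g hg0 (T σ k) b S (T σ N b) 0 (fun P Q hPQ => by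
      have hVd : V = P.flatMap (T σ k) ++ T σ k b ++ Q.flatMap (T σ k) := by
        rw [hVf, hPQ, List.flatMap_append, List.flatMap_cons, List.append_assoc]
      rw [hS, zero_add]
      unfold wup_A
      refine sum_le_sum fun j hj => sum_le_sum fun i hi => ?_
      rw [mem_range] at hj hi
      set P' := P.flatMap (T σ k) with hP'
      set U := T σ k b with hU
      have hj' : j ≤ U.length := by omega
      have hi' : i ≤ U.length := by omega
      have hp : pos L V (P'.length + j) - pos L V (P'.length + i) + δ ≤ t := by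
        rw [hVd, wup_pos_append L P' U _ j hj', wup_pos_append L P' U _ i hi']
        have h4 := wup_pos_le hD.Lpos U j
        have h5 := wup_pos_le hD.Lpos U i
        have h6 : len L (ab U) = θ ^ k * L b := wup_len_T hD.toPFD k b
        have h7 : L b ≤ ∑ a, L a :=
          single_le_sum (fun a _ => (hD.Lpos a).le) (mem_univ b)
        have h8 : θ ^ k * L b + δ ≤ t := by
          rw [ht, hC0]
          nlinarith
        linarith [h4.2, h5.1]
      rw [hg]
      dsimp only
      rw [if_pos hp]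
      refine le_of_eq (sum_congr rfl fun c _ => ?_)
      have h9 : ∑ r ∈ Ico (P'.length + i) (P'.length + j), zz y V c r =
          yw y P' * (Fc y c U j - Fc y c U i) := by
        rw [sum_Ico_eq_sub _ (by omega), ← wup_Fc hy, ← wup_Fc hy, hVd,
          wup_Fc_append y c P' U _ j hj', wup_Fc_append y c P' U _ i hi']
        ring
      rw [h9, norm_mul, wup_yw hy, wup_norm_chi hy, one_mul, norm_sub_rev])
    rwa [← hVf] at h3
  -- limit
  have hlimL : Tendsto (fun N : ℕ => δ ^ 2 * ((((T σ N b).count b : ℝ) /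
      ((T σ (N + k) b).length : ℝ)) * S)) atTop (𝓝 (δ ^ 2 * (f b / θ ^ k * S))) :=
    ((wup_count_lim hD.toPFD k b b).mul_const S).const_mul _
  have hlimR : Tendsto (fun N : ℕ => (t ^ 2 / 2) * (qf L y t (T σ (N + k) b) /
      ((T σ (N + k) b).length : ℝ))) atTop (𝓝 ((t ^ 2 / 2) * VV gam L y t)) :=
    ((tendsto_add_atTop_iff_nat k).2 (hVlim b)).const_mul _
  have hfin : δ ^ 2 * (f b / θ ^ k * S) ≤ (t ^ 2 / 2) * VV gam L y t := by
    refine le_of_tendsto_of_tendsto' hlimL hlimR fun N => ?_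
    have h1 := hmain N
    have h2 : (0:ℝ) ≤ ((T σ (N + k) b).length : ℝ) := Nat.cast_nonneg _
    have h3 := div_le_div_of_nonneg_right h1 h2
    have e1 : δ ^ 2 * (((T σ N b).count b : ℝ) / ((T σ (N + k) b).length : ℝ) * S) =
        δ ^ 2 * (((T σ N b).count b : ℝ) * S) / ((T σ (N + k) b).length : ℝ) := by ring
    have e2 : t ^ 2 / 2 * (qf L y t (T σ (N + k) b) / ((T σ (N + k) b).length : ℝ)) =
        t ^ 2 / 2 * qf L y t (T σ (N + k) b) / ((T σ (N + k) b).length : ℝ) := by ring
    rw [e1, e2]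
    exact h3
  have hfb := hD.fpos b
  have hfin2 : 2 * S ≤ C0 ^ 2 / (δ ^ 2 * f b) * θ ^ (3 * k) * VV gam L y t := by
    have e3 : θ ^ (3 * k) = θ ^ k * (θ ^ k) ^ 2 := by
      rw [← pow_mul, ← pow_add]; congr 1; ring
    have h4 : S = δ ^ 2 * (f b / θ ^ k * S) * (θ ^ k / (δ ^ 2 * f b)) := by
      field_simp
    have h5 : 0 ≤ θ ^ k / (δ ^ 2 * f b) := by positivity
    have h6 := mul_le_mul_of_nonneg_right hfin h5
    rw [← h4] at h6
    calc 2 * S ≤ 2 * (t ^ 2 / 2 * VV gam L y t * (θ ^ k / (δ ^ 2 * f b))) := by linarith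
      _ = C0 ^ 2 / (δ ^ 2 * f b) * θ ^ (3 * k) * VV gam L y t := by
        rw [e3, ht]; ring
  refine hfin2.trans ?_
  have h7 : C0 ^ 2 / (δ ^ 2 * f b) ≤ CU :=
    single_le_sum (f := fun a => C0 ^ 2 / (δ ^ 2 * f a)) (fun a _ => hterm a) (mem_univ b)
  have h8 : 0 ≤ θ ^ (3 * k) := by positivity
  gcongr

end Pool.Agent.Helper97.FS
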